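import Pool.Agent.H90.TA.NN

/-!
# Module D1: powers of `δ` have many syllables (helper90)
-/

namespace TA

theorem d1 : S_D1 := by
  intro κ m p q hm l hl
  rcases Nat.eq_zero_or_pos κ with rfl | hκ
  · omega
  have : NeZero (2 * κ) := ⟨by omega⟩
  have h1 := card_support_le (κ := κ) l
  rw [hl] at h1
  -- a set of `κ` classes on which `nn (δ^m)` does not vanish
  have hS : ∃ S : Finset (ZMod (2 * κ)), κ ≤ S.card ∧ ∀ i ∈ S, nn κ (del κ ^ m) i ≠ 0 := by
    have hlow : κ ≤ (Finset.univ.filter fun i : ZMod (2 * κ) => i.val < κ).card := by
      have : (Finset.range κ).card ≤ (Finset.univ.filter fun i : ZMod (2 * κ) => i.val < κ).card := by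
        refine Finset.card_le_card_of_injOn (fun k => (k : ZMod (2 * κ))) ?_ ?_
        · intro k hk
          simp only [Finset.coe_range, Set.mem_Iio] at hk
          simp only [Finset.coe_filter, Finset.mem_univ, true_and, Set.mem_ofPred_eq]
          rw [ZMod.val_natCast, Nat.mod_eq_of_lt (by omega)]
          exact hk
        · intro a ha b hb hab
          simp only [Finset.coe_range, Set.mem_Iio] at ha hb
          have := congrArg ZMod.val hab
          simp only [ZMod.val_natCast] at this
          rwa [Nat.mod_eq_of_lt (by omega), Nat.mod_eq_of_lt (by omega)] at this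
      simpa using this
    have hhigh : κ ≤ (Finset.univ.filter fun i : ZMod (2 * κ) => ¬ i.val < κ).card := by
      have : (Finset.range κ).card ≤
          (Finset.univ.filter fun i : ZMod (2 * κ) => ¬ i.val < κ).card := by
        refine Finset.card_le_card_of_injOn (fun k => ((k + κ : ℕ) : ZMod (2 * κ))) ?_ ?_
        · intro k hk
          simp only [Finset.coe_range, Set.mem_Iio] at hk
          simp only [Finset.coe_filter, Finset.mem_univ, true_and, Set.mem_ofPred_eq]
          rw [ZMod.val_natCast, Nat.mod_eq_of_lt (by omega)]
          omega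
        · intro a ha b hb hab
          simp only [Finset.coe_range, Set.mem_Iio] at ha hb
          have := congrArg ZMod.val hab
          simp only [ZMod.val_natCast] at this
          rw [Nat.mod_eq_of_lt (by omega), Nat.mod_eq_of_lt (by omega)] at this
          omega
      simpa using this
    rcases Int.even_or_odd' m with ⟨c, hc | hc⟩
    · refine ⟨_, hlow, ?_⟩
      intro i _
      rw [hc, nn_del_even9 hκ]
      omega
    · by_cases hc0 : c = 0
      · refine ⟨_, hlow, ?_⟩
        intro i hi
        rw [Finset.mem_filter] at hi
        rw [hc, nn_del_odd9 hκ, if_pos hi.2, hc0]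
        norm_num
      · refine ⟨_, hhigh, ?_⟩
        intro i hi
        rw [Finset.mem_filter] at hi
        rw [hc, nn_del_odd9 hκ, if_neg hi.2, add_zero]
        exact hc0
  obtain ⟨S, hS1, hS2⟩ := hS
  have h2 : ((S.erase 0).erase (cls κ (del κ ^ m))).card ≤ (Finset.univ.filter
      fun i : ZMod (2 * κ) =>
        nn κ (dgen κ false ^ p * del κ ^ m * dgen κ false ^ q) i ≠ 0).card := by
    apply Finset.card_le_card
    intro i hi
    simp only [Finset.mem_erase] at hi
    simp only [Finset.mem_filter, Finset.mem_univ, true_and]
    rw [nn_mul, nn_mul, nn_a_zpow9, cls_mul, cls_a_zpow9, nn_a_zpow9, if_neg hi.2.1, sub_zero,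
      zero_add, zero_add, if_neg (by rw [sub_eq_zero]; exact hi.1), add_zero]
    exact hS2 i hi.2.2
  have h3 := Finset.pred_card_le_card_erase (s := S) (a := (0 : ZMod (2 * κ)))
  have h4 := Finset.pred_card_le_card_erase (s := S.erase 0) (a := cls κ (del κ ^ m))
  omega

end TA
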