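import Pool.Agent.H90.TA.D3H

/-!
# Module D3: the local lemma (helper90)
-/

namespace TA

section
variable {κ : ℕ}

theorem exists_list_zz_zpow (c : ℤ) :
    ∃ l : List (Bool × ℤ), ev (dgen κ) l = zz κ ^ c ∧ l.length = 4 * κ * c.natAbs := by
  have h1 : ∀ n : ℕ, ∃ l : List (Bool × ℤ),
      ev (dgen κ) l = (dgen κ false * dgen κ true) ^ n ∧ l.length = 2 * n := by
    intro n
    induction n with
    | zero => exact ⟨[], by simp, by simp⟩
    | succ n ih =>
      obtain ⟨l, hl, hl'⟩ := ih
      refine ⟨(false, 1) :: (true, 1) :: l, ?_, ?_⟩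
      · rw [ev_cons, ev_cons, hl, pow_succ']
        simp [mul_assoc]
      · simp only [List.length_cons]; omega
  have h2 : ∀ n : ℕ, ∃ l : List (Bool × ℤ), ev (dgen κ) l = zz κ ^ n ∧ l.length = 4 * κ * n := by
    intro n
    obtain ⟨l, hl, hl'⟩ := h1 (2 * κ * n)
    refine ⟨l, ?_, ?_⟩
    · rw [hl, zz, pow_mul]
    · rw [hl']; ring
  rcases Int.eq_nat_or_neg c with ⟨n, rfl | rfl⟩
  · obtain ⟨l, hl, hl'⟩ := h2 n
    exact ⟨l, by rw [hl, zpow_natCast], by simpa using hl'⟩
  · obtain ⟨l, hl, hl'⟩ := h2 n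
    exact ⟨linv l, by rw [ev_linv, hl, zpow_neg, zpow_natCast], by simpa using hl'⟩

theorem Lett.append {l l' : List (Bool × ℤ)} (h : Lett l) (h' : Lett l') : Lett (l ++ l') := by
  intro s hs
  rcases List.mem_append.1 hs with hs | hs
  · exact h s hs
  · exact h' s hs

theorem Lett.linv {l : List (Bool × ℤ)} (h : Lett l) : Lett (linv l) := by
  intro s hs
  rw [mem_linv] at hs
  have := h _ hs
  simp only at this
  omega

theorem exists_lett (α : D κ) : ∃ w, Lett w ∧ ev (dgen κ) w = α := by
  have hg : α ∈ Subgroup.closure (Set.range (dgen κ)) := by rw [D_closure]; trivial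
  induction hg using Subgroup.closure_induction with
  | mem g hg =>
    obtain ⟨y, rfl⟩ := hg
    exact ⟨[(y, 1)], by simp [Lett], by simp⟩
  | one => exact ⟨[], by simp [Lett], by simp⟩
  | mul g k _ _ hg hk =>
    obtain ⟨w, h1, h2⟩ := hg
    obtain ⟨w', h1', h2'⟩ := hk
    exact ⟨w ++ w', h1.append h1', by rw [ev_append, h2, h2']⟩
  | inv g _ hg =>
    obtain ⟨w, h1, h2⟩ := hg
    exact ⟨linv w, h1.linv, by rw [ev_linv, h2]⟩

theorem exists_zshort (α : D κ) :
    ∃ (w : List (Bool × ℤ)) (c : ℤ), ZShort κ w ∧ α = ev (dgen κ) w * zz κ ^ c := by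
  classical
  have hex : ∃ n, ∃ (w : List (Bool × ℤ)) (c : ℤ), Lett w ∧ α = ev (dgen κ) w * zz κ ^ c ∧
      w.length = n := by
    obtain ⟨w, h1, h2⟩ := exists_lett α
    exact ⟨_, w, 0, h1, by simp [h2], rfl⟩
  obtain ⟨w, c, h1, h2, h3⟩ := Nat.find_spec hex
  refine ⟨w, c, ⟨h1, ?_⟩, h2⟩
  rintro w' hw' ⟨c', hc'⟩
  rw [h3]
  refine Nat.find_min' hex ⟨w', c - c', hw', ?_, rfl⟩
  rw [hc', mul_assoc, ← zpow_add, h2]
  congr 2
  ring

/-- Splitting off the first and the last run. -/
theorem exists_runs (w : List (Bool × ℤ)) :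
    (∀ s ∈ w, ∀ s' ∈ w, s.1 = s'.1) ∨
    ∃ w0 w1 w2 : List (Bool × ℤ), w = w0 ++ w1 ++ w2 ∧ w0 ≠ [] ∧ w2 ≠ [] ∧
      (∀ s ∈ w0, ∀ s' ∈ w0, s.1 = s'.1) ∧ (∀ s ∈ w0, ∀ s' ∈ (w1 ++ w2).head?, s.1 ≠ s'.1) ∧
      (∀ s ∈ w2, ∀ s' ∈ w2, s.1 = s'.1) ∧
      (∀ s ∈ w2, ∀ s' ∈ (w0 ++ w1).getLast?, s.1 ≠ s'.1) := by
  -- first run
  have hfirst : ∀ w : List (Bool × ℤ), w ≠ [] → ∃ u v, w = u ++ v ∧ u ≠ [] ∧
      (∀ s ∈ u, ∀ s' ∈ u, s.1 = s'.1) ∧ (∀ s ∈ u, ∀ s' ∈ v.head?, s.1 ≠ s'.1) := by
    intro w
    induction w with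
    | nil => intro h; exact absurd rfl h
    | cons a l ih =>
      intro _
      rcases l with _ | ⟨b, l'⟩
      · exact ⟨[a], [], by simp, by simp, by simp, by simp⟩
      · obtain ⟨u, v, h1, h2, h3, h4⟩ := ih (by simp)
        obtain ⟨b', u', rfl⟩ := List.exists_cons_of_ne_nil h2
        have hb : b' = b := by
          rw [List.cons_append, List.cons.injEq] at h1
          exact h1.1.symm
        subst hb
        by_cases hab : a.1 = b'.1
        · refine ⟨a :: b' :: u', v, by simp [h1], by simp, ?_, ?_⟩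
          · have key : ∀ s ∈ a :: b' :: u', s.1 = b'.1 := by
              intro s hs
              rcases List.mem_cons.1 hs with rfl | hs
              · exact hab
              · exact h3 s hs b' (by simp)
            intro s hs s' hs'
            rw [key s hs, key s' hs']
          · intro s hs s' hs'
            rcases List.mem_cons.1 hs with rfl | hs
            · rw [hab]
              exact h4 b' (by simp) s' hs'
            · exact h4 s hs s' hs'
        · refine ⟨[a], b' :: l', by simp, by simp, by simp, ?_⟩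
          intro s hs s' hs'
          simp only [List.mem_singleton] at hs
          simp only [List.head?_cons, Option.mem_some_iff] at hs'
          subst hs hs'
          exact hab
  rcases eq_or_ne w [] with rfl | hw
  · left; simp
  obtain ⟨u, v, h1, h2, h3, h4⟩ := hfirst w hw
  rcases eq_or_ne v [] with rfl | hv
  · left
    rw [h1, List.append_nil]
    exact h3
  right
  obtain ⟨u2, v2, k1, k2, k3, k4⟩ := hfirst v.reverse (by simpa using hv)
  have hvrev : v = v2.reverse ++ u2.reverse := by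
    rw [← List.reverse_append, ← k1, List.reverse_reverse]
  refine ⟨u, v2.reverse, u2.reverse, by rw [h1, hvrev, List.append_assoc], h2, by simpa using k2,
    h3, ?_, ?_, ?_⟩
  · rw [← hvrev]; exact h4
  · intro s hs s' hs'
    exact k3 s (by simpa using hs) s' (by simpa using hs')
  · intro s hs s' hs'
    rw [List.mem_reverse] at hs
    rcases eq_or_ne v2 [] with rfl | hv2
    · -- `v` is a single run
      rw [List.reverse_nil, List.append_nil] at hs'
      have hs'u : s' ∈ u := List.mem_of_mem_getLast? hs'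
      rw [List.reverse_nil, List.nil_append] at hvrev
      obtain ⟨b, v', rfl⟩ := List.exists_cons_of_ne_nil hv
      have hbu : b ∈ u2 := by
        rw [← List.mem_reverse, ← hvrev]; simp
      rw [k3 s hs b hbu]
      exact (h4 s' hs'u b (by simp)).symm
    · have hlast : s' ∈ v2.head? := by
        rw [List.getLast?_append, List.getLast?_reverse] at hs'
        obtain ⟨b, v', rfl⟩ := List.exists_cons_of_ne_nil hv2
        simpa using hs'
      exact k4 s hs s' hlast

end

theorem d3_of (h1 : S_D3V) (h2 : S_D3H) : S_D3 := by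
  intro κ hκ σ hσ α
  obtain ⟨w, c, hw, hα⟩ := exists_zshort α
  obtain ⟨lz, hlz, hlz'⟩ := exists_list_zz_zpow (κ := κ) c
  rcases exists_runs w with hrun | ⟨w0, w1, w2, rfl, k0, k2, r0, d0, r2, d2⟩
  · obtain ⟨T, hT1, hT2, hT3⟩ := h2 κ (by omega) σ hσ w [] [] (by simpa using hw.1) hrun
      (by simp) c
    simp only [List.append_nil, List.length_nil, add_zero] at hT2 hT3
    rw [← hα] at hT2
    obtain ⟨x, n, hx⟩ := ev_same (κ := κ) w hrun
    constructor
    · intro hno
      have hT : T = ∅ := by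
        rw [Finset.eq_empty_iff_forall_notMem]
        intro p hp
        exact hno _ _ (hT2 p hp)
      rw [hT, Finset.card_empty, Nat.le_zero, Nat.mul_eq_zero] at hT3
      have hc : c = 0 := by omega
      refine ⟨[(x, n)], ?_, by simp⟩
      rw [hα, hx, hc]; simp
    · intro R hR
      have hcard := hR T hT1 hT2
      refine ⟨(x, n) :: lz, ?_, ?_⟩
      · rw [ev_cons, hlz, hα, hx]
      · rw [List.length_cons, hlz', CC]
        have hcR : c.natAbs ≤ R := by
          have : 1 * c.natAbs ≤ (2 * κ - 2) * c.natAbs := Nat.mul_le_mul_right _ (by omega)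
          omega
        have : 4 * κ * c.natAbs ≤ 4 * κ * (2 * R + 4) := Nat.mul_le_mul_left _ (by omega)
        omega
  · obtain ⟨T, hT1, hT2, hT3⟩ := h2 κ (by omega) σ hσ w0 w1 w2 hw.1 r0 r2 c
    obtain ⟨T', hT1', hT2', hT3'⟩ := h1 κ (by omega) σ hσ w0 w1 w2 hw k0 k2 r0 d0 r2 d2 c
    rw [← hα] at hT2 hT2'
    obtain ⟨x, n, hx⟩ := ev_same (κ := κ) w0 r0
    obtain ⟨x', n', hx'⟩ := ev_same (κ := κ) w2 r2
    constructor
    · intro hno
      have hT : T = ∅ := by
        rw [Finset.eq_empty_iff_forall_notMem]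
        intro p hp
        exact hno _ _ (hT2 p hp)
      have hT' : T' = ∅ := by
        rw [Finset.eq_empty_iff_forall_notMem]
        intro p hp
        exact hno _ _ (hT2' p hp)
      rw [hT, Finset.card_empty] at hT3
      rw [hT', Finset.card_empty] at hT3'
      have hc : c = 0 := by
        by_contra hc
        have : 8 * 1 ≤ (2 * κ - 2) * c.natAbs := Nat.mul_le_mul (by omega) (by omega)
        omega
      refine ⟨(x, n) :: w1 ++ [(x', n')], ?_, ?_⟩
      · rw [hα, hc, ev_append, ev_append, ev_append, hx, hx']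
        simp [mul_assoc]
      · simp only [List.cons_append, List.length_cons, List.length_append, List.length_nil]
        omega
    · intro R hR
      have hcard := hR T hT1 hT2
      have hcard' := hR T' hT1' hT2'
      refine ⟨(x, n) :: w1 ++ [(x', n')] ++ lz, ?_, ?_⟩
      · rw [hα, ev_append, ev_append, ev_append, ev_append, hx, hx', hlz]
        simp [mul_assoc]
      · simp only [List.cons_append, List.length_cons, List.length_append, List.length_nil, hlz',
          CC]
        have hcR : c.natAbs ≤ 2 * R + 4 := by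
          have : 1 * c.natAbs ≤ (2 * κ - 2) * c.natAbs := Nat.mul_le_mul_right _ (by omega)
          omega
        have : 4 * κ * c.natAbs ≤ 4 * κ * (2 * R + 4) := Nat.mul_le_mul_left _ (by omega)
        omega

end TA
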