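import Pool.Agent.H90.TA.NN

/-!
# Module D3H: counting strict `H`-walls (helper90)
-/

namespace TA

section
variable {κ : ℕ}

/-- The position of the base of a wall of the family `Ha` in its class. -/
def hJ (κ : ℕ) (t : D κ) : ℤ := nn κ t (cls κ t)

/-- The explicit side function of the family `Ha`. -/
def hF (κ : ℕ) (t g : D κ) : ZMod 2 :=
  (if hJ κ t < nn κ g (cls κ t) then 1 else 0) + (if hJ κ t < 0 then 1 else 0)

theorem hJ_inv_mul (g t : D κ) : hJ κ (g⁻¹ * t) = hJ κ t - nn κ g (cls κ t) := by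
  simp only [hJ, nn_mul, cls_mul, cls_inv, nn_inv]
  have h1 : -cls κ g + cls κ t + cls κ g = cls κ t := by ring
  have h2 : -cls κ g + cls κ t - -cls κ g = cls κ t := by ring
  rw [h1, h2]; ring

theorem hF_isSide : IsSide (dgen κ) false (KK κ) (hF κ) where
  mul := by
    intro t g h
    simp only [hF, hJ_inv_mul, cls_mul, cls_inv, nn_mul]
    have h1 : -cls κ g + cls κ t = cls κ t - cls κ g := by ring
    rw [h1]
    have e1 : (hJ κ t - nn κ g (cls κ t) < nn κ h (cls κ t - cls κ g)) ↔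
        (hJ κ t < nn κ g (cls κ t) + nn κ h (cls κ t - cls κ g)) := by
      constructor <;> intro h <;> linarith
    have e2 : (hJ κ t - nn κ g (cls κ t) < 0) ↔ hJ κ t < nn κ g (cls κ t) := by
      constructor <;> intro h <;> linarith
    simp only [e1, e2]
    split_ifs <;> decide
  self_mem := by
    intro t ht
    rw [mem_KK] at ht
    simp [hF, hJ, ht.1, ht.2]
  self_not_mem := by
    intro t ht
    rw [mem_KK] at ht
    by_cases hc : cls κ t = 0
    · have hJ0 : hJ κ t ≠ 0 := by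
        intro h0
        apply ht
        refine ⟨hc, ?_⟩
        rwa [hJ, hc] at h0
      simp only [hF, nn_a, hc, if_true]
      by_cases hlt : hJ κ t < 0
      · rw [if_pos hlt, if_pos (by omega)]; decide
      · rw [if_neg hlt, if_neg (by omega)]; decide
    · simp only [hF, nn_a, hc, if_false]
      exact CharTwo.add_self_eq_zero _
  other := by
    intro t y hy
    cases y with
    | false => exact absurd rfl hy
    | true =>
      simp only [hF, nn_b]
      exact CharTwo.add_self_eq_zero _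

/-- The standard representatives of the walls of the family `Ha`. -/
def hT (κ : ℕ) (i : ZMod (2 * κ)) (j : ℤ) : D κ := dgen κ true ^ i.val * dgen κ false ^ j

theorem cls_hT [NeZero (2 * κ)] (i : ZMod (2 * κ)) (j : ℤ) : cls κ (hT κ i j) = i := by
  rw [hT, cls_mul, cls_a_zpow9, cls_pow, cls_b, mul_one, add_zero, ZMod.natCast_zmod_val]

theorem hJ_hT [NeZero (2 * κ)] (i : ZMod (2 * κ)) (j : ℤ) : hJ κ (hT κ i j) = j := by
  rw [hJ, cls_hT, hT, nn_mul, ← zpow_natCast, nn_b_zpow, nn_a_zpow9, zpow_natCast, cls_pow, cls_b,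
    mul_one, ZMod.natCast_zmod_val, sub_self, if_pos rfl, zero_add]

theorem hT_mem [NeZero (2 * κ)] {i i' : ZMod (2 * κ)} {j j' : ℤ}
    (h : (hT κ i j)⁻¹ * hT κ i' j' ∈ KK κ) : i = i' ∧ j = j' := by
  rw [mem_KK] at h
  obtain ⟨h1, h2⟩ := h
  rw [cls_mul, cls_inv, cls_hT, cls_hT] at h1
  have hi : i = i' := by
    have : i' - i = 0 := by rw [← h1]; ring
    exact (sub_eq_zero.1 this).symm
  subst hi
  refine ⟨rfl, ?_⟩
  have h3 := hJ_inv_mul (hT κ i j) (hT κ i j')
  have h4 : cls κ ((hT κ i j)⁻¹ * hT κ i j') = 0 := by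
    rw [cls_mul, cls_inv, cls_hT, cls_hT]; ring
  have h5 : nn κ (hT κ i j) (cls κ (hT κ i j')) = j := by
    rw [cls_hT]
    have := hJ_hT (κ := κ) i j
    rwa [hJ, cls_hT] at this
  rw [h5, hJ_hT, hJ, h4, h2] at h3
  omega

theorem hF_eq_one_of_mem_step [NeZero (2 * κ)] (g : D κ) (i : ZMod (2 * κ)) (j : ℤ)
    (hj : j ∈ step (nn κ g i)) : hF κ (hT κ i j) g = 1 := by
  simp only [step, Finset.mem_union, Finset.mem_Ico] at hj
  rw [hF, hJ_hT, cls_hT]
  rcases hj with ⟨h1, h2⟩ | ⟨h1, h2⟩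
  · rw [if_pos h2, if_neg (by omega)]; decide
  · rw [if_neg (by omega), if_pos h2]; decide

theorem ev_same (w : List (Bool × ℤ)) (hw : ∀ s ∈ w, ∀ s' ∈ w, s.1 = s'.1) :
    ∃ x : Bool, ∃ n : ℤ, ev (dgen κ) w = dgen κ x ^ n := by
  induction w with
  | nil => exact ⟨false, 0, by simp⟩
  | cons s l ih =>
    obtain ⟨y, n, hn⟩ := ih fun a ha b hb => hw a (by simp [ha]) b (by simp [hb])
    rcases l with _ | ⟨s', l'⟩
    · exact ⟨s.1, s.2, by simp⟩
    · have hev : ∀ l : List (Bool × ℤ), (∀ a ∈ l, a.1 = s.1) →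
          ∃ n : ℤ, ev (dgen κ) l = dgen κ s.1 ^ n := by
        intro l
        induction l with
        | nil => intro _; exact ⟨0, by simp⟩
        | cons a l ih =>
          intro hl
          obtain ⟨n, hn⟩ := ih fun b hb => hl b (by simp [hb])
          exact ⟨a.2 + n, by rw [ev_cons, hn, hl a (by simp), zpow_add]⟩
      obtain ⟨n', hn'⟩ := hev (s :: s' :: l') fun a ha => hw a ha s (by simp)
      exact ⟨s.1, n', hn'⟩

theorem nn_dgen_zpow (x : Bool) (n : ℤ) {i : ZMod (2 * κ)} (h : x = false → i ≠ 0) :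
    nn κ (dgen κ x ^ n) i = 0 := by
  cases x with
  | false => rw [nn_a_zpow9, if_neg (h rfl)]
  | true => rw [nn_b_zpow]

theorem sum_nn_le [NeZero (2 * κ)] (l : List (Bool × ℤ)) (hl : Lett l) :
    ∑ i : ZMod (2 * κ), (nn κ (ev (dgen κ) l) i).natAbs ≤ l.length := by
  induction l with
  | nil => simp
  | cons s l ih =>
    have ih' := ih fun a ha => hl a (by simp [ha])
    have hs := hl s (by simp)
    have h1 : ∑ i : ZMod (2 * κ), (nn κ (ev (dgen κ) (s :: l)) i).natAbs ≤
        ∑ i : ZMod (2 * κ), ((nn κ (dgen κ s.1 ^ s.2) i).natAbs +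
          (nn κ (ev (dgen κ) l) (i - cls κ (dgen κ s.1 ^ s.2))).natAbs) := by
      apply Finset.sum_le_sum
      intro i _
      rw [ev_cons, nn_mul]
      exact Int.natAbs_add_le _ _
    rw [Finset.sum_add_distrib] at h1
    have h2 : ∑ i : ZMod (2 * κ),
        (nn κ (ev (dgen κ) l) (i - cls κ (dgen κ s.1 ^ s.2))).natAbs =
        ∑ i : ZMod (2 * κ), (nn κ (ev (dgen κ) l) i).natAbs :=
      Equiv.sum_comp (Equiv.subRight (cls κ (dgen κ s.1 ^ s.2)))
        (fun i => (nn κ (ev (dgen κ) l) i).natAbs)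
    have h3 : ∑ i : ZMod (2 * κ), (nn κ (dgen κ s.1 ^ s.2) i).natAbs ≤ 1 := by
      obtain ⟨x, e⟩ := s
      cases x with
      | false =>
        have : ∀ i : ZMod (2 * κ), (nn κ (dgen κ false ^ e) i).natAbs =
            if i = 0 then e.natAbs else 0 := by
          intro i
          rw [nn_a_zpow9]
          split_ifs <;> simp
        simp only [this]
        rw [Finset.sum_ite_eq']
        simp only [Finset.mem_univ, if_true]
        rcases hs with hs | hs <;> simp only at hs <;> subst hs <;> simp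
      | true =>
        simp [nn_b_zpow]
    rw [h2] at h1
    simp only [List.length_cons]
    omega

end

theorem d3h : S_D3H := by
  intro κ hκ σ hσ w0 w1 w2 hL h0 h2 c
  have : NeZero (2 * κ) := ⟨by omega⟩
  classical
  set α := ev (dgen κ) (w0 ++ w1 ++ w2) * zz κ ^ c with hα
  have hσF : ∀ t g, σ LFam.Ha t g = hF κ t g := by
    intro t g
    exact IsSide.unique (hσ LFam.Ha) hF_isSide (D_closure κ) t g
  let S : Finset (ZMod (2 * κ)) := ((Finset.univ.erase 0).erase (cls κ α))
  let U : Finset (Σ _ : ZMod (2 * κ), ℤ) := S.sigma fun i => step (nn κ α i)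
  let f : (Σ _ : ZMod (2 * κ), ℤ) → LFam × D κ := fun u => (LFam.Ha, hT κ u.1 u.2)
  have hinj : ∀ u v : (Σ _ : ZMod (2 * κ), ℤ), (f u).2⁻¹ * (f v).2 ∈ KK κ → u = v := by
    rintro ⟨i, j⟩ ⟨i', j'⟩ h
    obtain ⟨rfl, rfl⟩ := hT_mem h
    rfl
  refine ⟨U.image f, ?_, ?_, ?_⟩
  · intro p hp q hq _ hpq
    rw [Finset.mem_image] at hp hq
    obtain ⟨u, _, rfl⟩ := hp
    obtain ⟨v, _, rfl⟩ := hq
    rw [hinj u v hpq]
  · intro p hp
    rw [Finset.mem_image] at hp
    obtain ⟨⟨i, j⟩, hu, rfl⟩ := hp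
    simp only [U, S, Finset.mem_sigma, Finset.mem_erase, Finset.mem_univ, and_true] at hu
    obtain ⟨⟨hu1, hu2⟩, hu3⟩ := hu
    refine ⟨?_, ?_, ?_⟩
    · change σ LFam.Ha (hT κ i j) α = 1
      rw [hσF]
      exact hF_eq_one_of_mem_step α i j hu3
    · intro n hn
      change (hT κ i j)⁻¹ * dgen κ false ^ n ∈ KK κ at hn
      rw [mem_KK, cls_mul, cls_inv, cls_hT, cls_a_zpow9, add_zero, neg_eq_zero] at hn
      exact hu2 hn.1
    · intro n hn
      change (hT κ i j)⁻¹ * α * dgen κ false ^ n ∈ KK κ at hn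
      rw [mem_KK, cls_mul, cls_mul, cls_inv, cls_hT, cls_a_zpow9, add_zero] at hn
      apply hu1
      have : cls κ α - i = 0 := by rw [← hn.1]; ring
      exact (sub_eq_zero.1 this).symm
  · have hcard : (U.image f).card = ∑ i ∈ S, (nn κ α i).natAbs := by
      rw [Finset.card_image_of_injOn, Finset.card_sigma]
      · simp only [card_step]
      · intro u _ v _ huv
        apply hinj
        rw [huv, inv_mul_cancel]
        exact (KK κ).one_mem
    have hS : 2 * κ - 2 ≤ S.card := by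
      have e1 := Finset.pred_card_le_card_erase (s := (Finset.univ : Finset (ZMod (2 * κ))).erase 0)
        (a := cls κ α)
      have e2 := Finset.pred_card_le_card_erase (s := (Finset.univ : Finset (ZMod (2 * κ))))
        (a := 0)
      have e3 : (Finset.univ : Finset (ZMod (2 * κ))).card = 2 * κ := by
        rw [Finset.card_univ, ZMod.card]
      change 2 * κ - 2 ≤ ((Finset.univ.erase 0).erase (cls κ α)).card
      omega
    have hnn : ∀ i, nn κ α i = nn κ (ev (dgen κ) (w0 ++ w1 ++ w2)) i + c := by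
      intro i
      rw [hα, nn_mul, nn_zz_zpow9 (by omega)]
    have hsum : ∑ i ∈ S, c.natAbs ≤ ∑ i ∈ S, (nn κ α i).natAbs +
        ∑ i ∈ S, (nn κ (ev (dgen κ) (w0 ++ w1 ++ w2)) i).natAbs := by
      rw [← Finset.sum_add_distrib]
      apply Finset.sum_le_sum
      intro i _
      rw [hnn]
      omega
    rw [Finset.sum_const, smul_eq_mul] at hsum
    have hw : ∑ i ∈ S, (nn κ (ev (dgen κ) (w0 ++ w1 ++ w2)) i).natAbs ≤ w1.length := by
      obtain ⟨x0, n0, hx0⟩ := ev_same (κ := κ) w0 h0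
      obtain ⟨x2, n2, hx2⟩ := ev_same (κ := κ) w2 h2
      have hcl : cls κ α = cls κ (ev (dgen κ) w0) + cls κ (ev (dgen κ) w1) +
          cls κ (ev (dgen κ) w2) := by
        rw [hα, cls_mul, cls_zz_zpow9, ev_append, ev_append, cls_mul, cls_mul, add_zero]
      have hpt : ∀ i ∈ S, (nn κ (ev (dgen κ) (w0 ++ w1 ++ w2)) i).natAbs =
          (nn κ (ev (dgen κ) w1) (i - cls κ (ev (dgen κ) w0))).natAbs := by
        intro i hi
        simp only [S, Finset.mem_erase, Finset.mem_univ, and_true] at hi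
        rw [ev_append, ev_append, nn_mul, nn_mul, cls_mul]
        have e0 : nn κ (ev (dgen κ) w0) i = 0 := by
          rw [hx0]
          exact nn_dgen_zpow _ _ fun _ => hi.2
        have e2 : nn κ (ev (dgen κ) w2)
            (i - (cls κ (ev (dgen κ) w0) + cls κ (ev (dgen κ) w1))) = 0 := by
          rw [hx2]
          apply nn_dgen_zpow
          intro hx
          rw [sub_ne_zero]
          have : cls κ (ev (dgen κ) w2) = 0 := by rw [hx2, hx, cls_a_zpow9]
          rw [this, add_zero] at hcl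
          rw [← hcl]
          exact hi.1
        rw [e0, e2, zero_add, add_zero]
      rw [Finset.sum_congr rfl hpt]
      calc ∑ i ∈ S, (nn κ (ev (dgen κ) w1) (i - cls κ (ev (dgen κ) w0))).natAbs
          ≤ ∑ i : ZMod (2 * κ), (nn κ (ev (dgen κ) w1) (i - cls κ (ev (dgen κ) w0))).natAbs :=
            Finset.sum_le_sum_of_subset (Finset.subset_univ S)
        _ = ∑ i : ZMod (2 * κ), (nn κ (ev (dgen κ) w1) i).natAbs :=
            Equiv.sum_comp (Equiv.subRight (cls κ (ev (dgen κ) w0)))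
              (fun i => (nn κ (ev (dgen κ) w1) i).natAbs)
        _ ≤ w1.length := sum_nn_le w1 fun s hs => hL s (by simp [hs])
    have hmul : (2 * κ - 2) * c.natAbs ≤ S.card * c.natAbs := Nat.mul_le_mul_right _ hS
    rw [hcard]
    omega

end TA
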