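import Pool.Agent.H14.TA.Stmts

/-!
# Computations with the class and the counting functions (helper90)
-/

namespace TA

section
variable {κ : ℕ}

theorem nn_pow_of_cls (g : D κ) (hg : cls κ g = 0) (n : ℕ) (i) :
    nn κ (g ^ n) i = n * nn κ g i := by
  induction n with
  | zero => simp
  | succ n ih =>
    rw [pow_succ, nn_mul, ih, cls_pow, hg, mul_zero, sub_zero]
    push_cast; ring

theorem nn_zpow_of_cls (g : D κ) (hg : cls κ g = 0) (n : ℤ) (i) :
    nn κ (g ^ n) i = n * nn κ g i := by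
  cases n with
  | ofNat n => simp [nn_pow_of_cls g hg]
  | negSucc n =>
    rw [zpow_negSucc, nn_inv, cls_pow, hg, mul_zero, add_zero, nn_pow_of_cls g hg,
      Int.negSucc_eq]
    push_cast; ring

theorem nn_a_zpow9 (n : ℤ) (i : ZMod (2 * κ)) :
    nn κ (dgen κ false ^ n) i = if i = 0 then n else 0 := by
  rw [nn_zpow_of_cls _ cls_a, nn_a]
  split_ifs <;> simp

theorem cls_a_zpow9 (n : ℤ) : cls κ (dgen κ false ^ n) = 0 := by
  rw [cls_zpow, cls_a, mul_zero]

theorem nn_b_zpow (n : ℤ) (i : ZMod (2 * κ)) : nn κ (dgen κ true ^ n) i = 0 := by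
  have hp : ∀ (m : ℕ) (i : ZMod (2 * κ)), nn κ (dgen κ true ^ m) i = 0 := by
    intro m
    induction m with
    | zero => simp
    | succ m ih => intro i; rw [pow_succ, nn_mul, ih, nn_b, add_zero]
  cases n with
  | ofNat n => simpa using hp n i
  | negSucc n => rw [zpow_negSucc, nn_inv, hp, neg_zero]

theorem nn_ab_pow9 (j : ℕ) (i : ZMod (2 * κ)) :
    nn κ ((dgen κ false * dgen κ true) ^ j) i =
      ∑ k ∈ Finset.range j, if i = (k : ZMod (2 * κ)) then 1 else 0 := by
  induction j with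
  | zero => simp
  | succ j ih =>
    rw [pow_succ, nn_mul, ih, Finset.sum_range_succ, nn_mul, nn_a, nn_b, cls_pow, cls_mul, cls_a,
      cls_b]
    simp [sub_eq_zero]

theorem cls_ab_pow9 (j : ℕ) : cls κ ((dgen κ false * dgen κ true) ^ j) = j := by
  rw [cls_pow, cls_mul, cls_a, cls_b]; simp

theorem nn_ab_pow' (hκ : 1 ≤ κ) (j : ℕ) (hj : j ≤ 2 * κ) (i : ZMod (2 * κ)) :
    nn κ ((dgen κ false * dgen κ true) ^ j) i = if i.val < j then 1 else 0 := by
  have : NeZero (2 * κ) := ⟨by omega⟩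
  rw [nn_ab_pow9]
  have h : ∀ k ∈ Finset.range j, (if i = (k : ZMod (2 * κ)) then (1 : ℤ) else 0) =
      if i.val = k then 1 else 0 := by
    intro k hk
    rw [Finset.mem_range] at hk
    congr 1
    apply propext
    constructor
    · intro hik
      rw [hik, ZMod.val_natCast, Nat.mod_eq_of_lt (by omega)]
    · intro hik
      rw [← hik, ZMod.natCast_zmod_val]
  rw [Finset.sum_congr rfl h, Finset.sum_ite_eq]
  simp

theorem cls_del9 : cls κ (del κ) = κ := cls_ab_pow9 κ

theorem cls_zz9 : cls κ (zz κ) = 0 := by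
  rw [zz, cls_ab_pow9]
  exact ZMod.natCast_self _

theorem nn_del9 (hκ : 1 ≤ κ) (i : ZMod (2 * κ)) : nn κ (del κ) i = if i.val < κ then 1 else 0 :=
  nn_ab_pow' hκ κ (by omega) i

theorem nn_zz9 (hκ : 1 ≤ κ) (i : ZMod (2 * κ)) : nn κ (zz κ) i = 1 := by
  have : NeZero (2 * κ) := ⟨by omega⟩
  rw [zz, nn_ab_pow' hκ _ le_rfl, if_pos (ZMod.val_lt i)]

theorem nn_zz_zpow9 (hκ : 1 ≤ κ) (c : ℤ) (i : ZMod (2 * κ)) : nn κ (zz κ ^ c) i = c := by
  rw [nn_zpow_of_cls _ cls_zz9, nn_zz9 hκ, mul_one]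

theorem cls_zz_zpow9 (c : ℤ) : cls κ (zz κ ^ c) = 0 := by
  rw [cls_zpow, cls_zz9, mul_zero]

theorem del_zpow_even (c : ℤ) : del κ ^ (2 * c) = zz κ ^ c := by
  rw [zpow_mul, zz, del]
  congr 1
  rw [mul_comm 2 κ, pow_mul]
  norm_cast

theorem nn_del_even9 (hκ : 1 ≤ κ) (c : ℤ) (i : ZMod (2 * κ)) :
    nn κ (del κ ^ (2 * c)) i = c := by
  rw [del_zpow_even, nn_zz_zpow9 hκ]

theorem cls_del_even9 (c : ℤ) : cls κ (del κ ^ (2 * c)) = 0 := by
  rw [del_zpow_even, cls_zz_zpow9]

theorem nn_del_odd9 (hκ : 1 ≤ κ) (c : ℤ) (i : ZMod (2 * κ)) :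
    nn κ (del κ ^ (2 * c + 1)) i = c + if i.val < κ then 1 else 0 := by
  rw [zpow_add_one, nn_mul, nn_del_even9 hκ, cls_del_even9, sub_zero, nn_del9 hκ]

theorem cls_del_odd9 (c : ℤ) : cls κ (del κ ^ (2 * c + 1)) = κ := by
  rw [zpow_add_one, cls_mul, cls_del_even9, zero_add, cls_del9]

theorem card_support_le [NeZero (2 * κ)] (l : List (Bool × ℤ)) :
    (Finset.univ.filter fun i : ZMod (2 * κ) => nn κ (ev (dgen κ) l) i ≠ 0).card ≤ l.length := by
  induction l with
  | nil => simp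
  | cons s l ih =>
    obtain ⟨x, e⟩ := s
    cases x with
    | false =>
      have hsub : (Finset.univ.filter fun i : ZMod (2 * κ) =>
          nn κ (ev (dgen κ) ((false, e) :: l)) i ≠ 0) ⊆
          insert 0 (Finset.univ.filter fun i : ZMod (2 * κ) => nn κ (ev (dgen κ) l) i ≠ 0) := by
        intro i hi
        simp only [Finset.mem_filter, Finset.mem_univ, true_and, Finset.mem_insert] at hi ⊢
        by_contra hcon
        push Not at hcon
        apply hi
        rw [ev_cons, nn_mul, nn_a_zpow9, cls_a_zpow9, if_neg hcon.1, sub_zero, hcon.2, zero_add]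
      refine (Finset.card_le_card hsub).trans ((Finset.card_insert_le _ _).trans ?_)
      simpa using ih
    | true =>
      have hcard : (Finset.univ.filter fun i : ZMod (2 * κ) =>
          nn κ (ev (dgen κ) ((true, e) :: l)) i ≠ 0).card ≤
          (Finset.univ.filter fun i : ZMod (2 * κ) => nn κ (ev (dgen κ) l) i ≠ 0).card := by
        refine Finset.card_le_card_of_injOn (fun i => i - cls κ (dgen κ true ^ e)) ?_ ?_
        · intro i hi
          simp only [Finset.coe_filter, Finset.mem_univ, true_and, Set.mem_ofPred_eq] at hi ⊢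
          rw [ev_cons, nn_mul, nn_b_zpow, zero_add] at hi
          exact hi
        · intro i _ j _ hij
          simpa using hij
      refine hcard.trans (ih.trans ?_)
      simp

end

end TA
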